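import Pool.Agent.AvoidPath.Comp

/-!
An extension whose two end vertices touch a common component of the graph without the closed
neighbourhood of the path lies on an induced cycle.
-/

namespace Pool.Agent.AvoidPath

open Finset Classical

set_option linter.unusedSectionVars false

variable {V : Type} [Fintype V]

/-- the vertices without loop that are neither on the path `l` nor adjacent to a vertex of it -/
noncomputable def Fset (E : V → V → Prop) (l : List V) : Finset V :=
  Finset.univ.filter (fun v => ¬ E v v ∧ ∀ p ∈ l, v ≠ p ∧ ¬ E v p)

theorem mem_Fset (E : V → V → Prop) (l : List V) (v : V) :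
    v ∈ Fset E l ↔ ¬ E v v ∧ ∀ p ∈ l, v ≠ p ∧ ¬ E v p := by
  unfold Fset
  simp

/-- a chain `f 0, f 1, …, f (r + 1)` from `y` to `x` through `F` -/
def Chn (E : V → V → Prop) (F : Finset V) (x y : V) (r : ℕ) : Prop :=
  ∃ f : ℕ → V, f 0 = y ∧ f (r + 1) = x ∧ 1 ≤ r ∧ (∀ t, 1 ≤ t → t ≤ r → f t ∈ F) ∧
    ∀ t, t ≤ r → E (f t) (f (t + 1))

theorem chn_exists (E : V → V → Prop) (hE : ∀ a b, E a b → E b a) (F : Finset V) (x y z w : V)
    (hz : z ∈ F) (hw : w ∈ comp E F z) (hzx : E z x) (hwy : E w y) : ∃ r, Chn E F x y r := by
  have key : ∀ w, Relation.ReflTransGen (Rin E F) z w →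
      ∃ r, ∃ f : ℕ → V, f 1 = w ∧ f (r + 1) = x ∧ 1 ≤ r ∧ (∀ t, 1 ≤ t → t ≤ r → f t ∈ F) ∧
        ∀ t, 1 ≤ t → t ≤ r → E (f t) (f (t + 1)) := by
    intro w hw
    induction hw with
    | refl =>
      refine ⟨1, fun t => if t = 1 then z else x, by simp, by simp, le_refl _, ?_, ?_⟩
      · intro t h1 h2
        have : t = 1 := by omega
        subst this
        simpa using hz
      · intro t h1 h2
        have : t = 1 := by omega
        subst this
        simpa using hzx
    | @tail b c h1 h2 ih =>
      obtain ⟨r, f, hf1, hfr, hr, hF, hA⟩ := ih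
      refine ⟨r + 1, fun t => if t ≤ 1 then c else f (t - 1), by simp, ?_, by omega, ?_, ?_⟩
      · have : ¬ (r + 1 + 1 ≤ 1) := by omega
        simp only [this, if_false]
        simpa using hfr
      · intro t ht1 ht2
        by_cases ht : t ≤ 1
        · simp only [ht, if_true]; exact h2.2.1
        · simp only [ht, if_false]; exact hF _ (by omega) (by omega)
      · intro t ht1 ht2
        by_cases ht : t ≤ 1
        · have ht' : t = 1 := by omega
          subst ht'
          have : ¬ (1 + 1 ≤ 1) := by omega
          simp only [le_refl, if_true, this, if_false, Nat.add_sub_cancel]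
          rw [hf1]
          exact hE _ _ h2.2.2
        · have h3 : ¬ (t + 1 ≤ 1) := by omega
          simp only [ht, h3, if_false]
          have h4 := hA (t - 1) (by omega) (by omega)
          have h5 : t - 1 + 1 = t + 1 - 1 := by omega
          rw [h5] at h4
          exact h4
  obtain ⟨r, f, hf1, hfr, hr, hF, hA⟩ := key w (Finset.mem_filter.mp hw).2
  refine ⟨r, fun t => if t = 0 then y else f t, by simp, ?_, hr, ?_, ?_⟩
  · simp [hfr]
  · intro t h1 h2
    have : ¬ t = 0 := by omega
    simp only [this, if_false]
    exact hF t h1 h2
  · intro t ht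
    by_cases h0 : t = 0
    · subst h0
      simp only [if_true, Nat.zero_add, one_ne_zero, if_false]
      rw [hf1]
      exact hE _ _ hwy
    · have h1 : ¬ t + 1 = 0 := by omega
      simp only [h0, h1, if_false]
      exact hA t (by omega) ht

/-- a shortest chain has no chords and no repeated vertices -/
theorem chn_min (E : V → V → Prop) (F : Finset V) (x y : V) (hxy : x ≠ y) (hxF : x ∉ F)
    (hyF : y ∉ F) (hnE : ¬ E y x) (h : ∃ r, Chn E F x y r) :
    ∃ r, ∃ f : ℕ → V, f 0 = y ∧ f (r + 1) = x ∧ 1 ≤ r ∧ (∀ t, 1 ≤ t → t ≤ r → f t ∈ F) ∧
      (∀ t, t ≤ r → E (f t) (f (t + 1))) ∧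
      (∀ i j, i < j → j ≤ r + 1 → E (f i) (f j) → j = i + 1) ∧
      (∀ i j, i < j → j ≤ r + 1 → f i ≠ f j) := by
  have hmin : ∀ s, s < Nat.find h → ¬ Chn E F x y s := fun s hs => Nat.find_min h hs
  obtain ⟨f, hf0, hfr, hr, hF, hA⟩ := Nat.find_spec h
  set r := Nat.find h with hrdef
  refine ⟨r, f, hf0, hfr, hr, hF, hA, ?_, ?_⟩
  · intro i j hij hj hc
    by_contra hne
    have hij2 : i + 1 < j := by omega
    have hnot : ¬ (i = 0 ∧ j = r + 1) := by
      rintro ⟨rfl, rfl⟩
      rw [hf0, hfr] at hc
      exact hnE hc
    apply hmin (r - (j - i - 1)) (by omega)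
    refine ⟨fun t => if t ≤ i then f t else f (t + (j - i - 1)), ?_, ?_, by omega, ?_, ?_⟩
    · simp [hf0]
    · have h1 : ¬ (r - (j - i - 1) + 1 ≤ i) := by omega
      simp only [h1, if_false]
      have h2 : r - (j - i - 1) + 1 + (j - i - 1) = r + 1 := by omega
      rw [h2]
      exact hfr
    · intro t ht1 ht2
      by_cases ht : t ≤ i
      · simp only [ht, if_true]; exact hF t ht1 (by omega)
      · simp only [ht, if_false]; exact hF _ (by omega) (by omega)
    · intro t ht
      by_cases h1 : t + 1 ≤ i
      · have h2 : t ≤ i := by omega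
        simp only [h1, h2, if_true]
        exact hA t (by omega)
      · by_cases h2 : t ≤ i
        · simp only [h1, h2, if_true, if_false]
          have h3 : t = i := by omega
          have h4 : t + 1 + (j - i - 1) = j := by omega
          rw [h4, h3]
          exact hc
        · simp only [h1, h2, if_false]
          have h3 := hA (t + (j - i - 1)) (by omega)
          have h4 : t + (j - i - 1) + 1 = t + 1 + (j - i - 1) := by omega
          rw [h4] at h3
          exact h3
  · intro i j hij hj hc
    by_cases hi : i = 0
    · subst hi
      rw [hf0] at hc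
      by_cases hjr : j = r + 1
      · rw [hjr, hfr] at hc
        exact hxy hc.symm
      · exact hyF (hc ▸ hF j (by omega) (by omega))
    · by_cases hjr : j = r + 1
      · rw [hjr, hfr] at hc
        exact hxF (hc ▸ hF i (by omega) (by omega))
      · apply hmin (r - (j - i)) (by omega)
        refine ⟨fun t => if t ≤ i then f t else f (t + (j - i)), ?_, ?_, by omega, ?_, ?_⟩
        · simp [hf0]
        · have h1 : ¬ (r - (j - i) + 1 ≤ i) := by omega
          simp only [h1, if_false]
          have h2 : r - (j - i) + 1 + (j - i) = r + 1 := by omega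
          rw [h2]
          exact hfr
        · intro t ht1 ht2
          by_cases ht : t ≤ i
          · simp only [ht, if_true]; exact hF t ht1 (by omega)
          · simp only [ht, if_false]; exact hF _ (by omega) (by omega)
        · intro t ht
          by_cases h1 : t + 1 ≤ i
          · have h2 : t ≤ i := by omega
            simp only [h1, h2, if_true]
            exact hA t (by omega)
          · by_cases h2 : t ≤ i
            · simp only [h1, h2, if_true, if_false]
              have h3 : t = i := by omega
              have h4 : t + 1 + (j - i) = j + 1 := by omega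
              rw [h4, h3, hc]
              exact hA j (by omega)
            · simp only [h1, h2, if_false]
              have h3 := hA (t + (j - i)) (by omega)
              have h4 : t + (j - i) + 1 = t + 1 + (j - i) := by omega
              rw [h4] at h3
              exact h3

/-- the closing lemma -/
theorem closable (E : V → V → Prop) (hE : ∀ a b, E a b → E b a) (l : List V) (hl : l ≠ [])
    (x y : V) (h : IndPath E (x :: (l ++ [y]))) (z w : V) (hz : z ∈ Fset E l)
    (hw : w ∈ comp E (Fset E l) z) (hzx : E z x) (hwy : E w y) :
    ∃ o, IndCycle E o ∧ ∀ v ∈ x :: (l ++ [y]), v ∈ o := by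
  obtain ⟨_, hnd, hadj⟩ := h
  set Q := x :: (l ++ [y]) with hQ
  have hlen : Q.length = l.length + 2 := by simp [hQ]
  have hlpos : 0 < l.length := List.length_pos_iff.mpr hl
  have hQ0 : Q[0]'(by omega) = x := by simp [hQ]
  have hQl : Q[l.length + 1]'(by omega) = y := by simp [hQ]
  have hQm : ∀ i (hi : i < Q.length), 0 < i → i < l.length + 1 → Q[i] ∈ l := by
    intro i hi h0 h1
    obtain ⟨i', rfl⟩ : ∃ i', i = i' + 1 := ⟨i - 1, by omega⟩
    have : Q[i' + 1] = l[i']'(by omega) := by
      simp only [hQ, List.getElem_cons_succ]
      rw [List.getElem_append_left (by omega)]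
    rw [this]
    exact List.getElem_mem _
  have hxy : x ≠ y := by
    intro hxy
    have h1 : Q[0]'(by omega) = Q[l.length + 1]'(by omega) := by rw [hQ0, hQl, hxy]
    have h2 := (List.Nodup.getElem_inj_iff hnd).mp h1
    omega
  have hQ1 : Q[1]'(by omega) ∈ l := hQm 1 (by omega) (by omega) (by omega)
  have hQ2 : Q[l.length]'(by omega) ∈ l := hQm _ (by omega) (by omega) (by omega)
  have hxF : x ∉ Fset E l := by
    intro hx
    rw [mem_Fset] at hx
    apply (hx.2 _ hQ1).2
    have h1 := (hadj 0 1 (by omega) (by omega)).mpr (Or.inl rfl)
    rw [hQ0] at h1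
    exact h1
  have hyF : y ∉ Fset E l := by
    intro hy
    rw [mem_Fset] at hy
    apply (hy.2 _ hQ2).2
    have h1 := (hadj (l.length + 1) l.length (by omega) (by omega)).mpr (Or.inr rfl)
    rw [hQl] at h1
    exact h1
  have hnE : ¬ E y x := by
    intro hc
    have h1 : E (Q[l.length + 1]'(by omega)) (Q[0]'(by omega)) := by
      rw [hQ0, hQl]; exact hc
    have := (hadj (l.length + 1) 0 (by omega) (by omega)).mp h1
    omega
  obtain ⟨r, f, hf0, hfr, hr, hF, hA, hch, hinj⟩ := chn_min E (Fset E l) x y hxy hxF hyF hnE
    (chn_exists E hE (Fset E l) x y z w hz hw hzx hwy)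
  set R : List V := List.ofFn (fun t : Fin r => f ((t : ℕ) + 1)) with hR
  have hRlen : R.length = r := by simp [hR]
  have hRget : ∀ t (ht : t < R.length), R[t] = f (t + 1) := by
    intro t ht
    simp [hR]
  have hRF : ∀ v ∈ R, v ∈ Fset E l := by
    intro v hv
    obtain ⟨t, ht, rfl⟩ := List.getElem_of_mem hv
    rw [hRget t ht]
    exact hF _ (by omega) (by omega)
  refine ⟨Q ++ R, ⟨?_, ?_, ?_⟩, ?_⟩
  · rw [List.length_append]; omega
  · rw [List.nodup_append]
    refine ⟨hnd, ?_, ?_⟩
    · rw [List.nodup_iff_injective_getElem]
      rintro ⟨s, hs⟩ ⟨t, ht⟩ hst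
      simp only at hst
      rw [hRget s hs, hRget t ht] at hst
      rcases lt_trichotomy s t with h1 | h1 | h1
      · exact absurd hst (hinj _ _ (by omega) (by omega))
      · exact Fin.ext h1
      · exact absurd hst.symm (hinj _ _ (by omega) (by omega))
    · intro a ha b hb hab
      subst hab
      have hb' := hRF _ hb
      rcases List.mem_cons.mp ha with rfl | ha
      · exact hxF hb'
      · rcases List.mem_append.mp ha with ha | ha
        · exact ((mem_Fset E l a).mp hb').2 a ha |>.1 rfl
        · rw [List.mem_singleton] at ha
          subst ha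
          exact hyF hb'
  · -- cross adjacencies
    have hcross : ∀ i t (hi : i < Q.length) (ht : t < R.length),
        E Q[i] R[t] ↔ ((i = 0 ∧ t + 1 = r) ∨ (i = l.length + 1 ∧ t = 0)) := by
      intro i t hi ht
      rw [hRget t ht]
      constructor
      · intro hc
        by_cases h0 : i = 0
        · subst h0
          rw [hQ0, ← hfr] at hc
          have := hch (t + 1) (r + 1) (by omega) (le_refl _) (hE _ _ hc)
          left
          exact ⟨rfl, by omega⟩
        · by_cases h1 : i = l.length + 1
          · subst h1
            rw [hQl, ← hf0] at hc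
            have := hch 0 (t + 1) (by omega) (by omega) hc
            right
            exact ⟨rfl, by omega⟩
          · exfalso
            have h2 := hQm i hi (by omega) (by omega)
            have h3 := (mem_Fset E l _).mp (hF (t + 1) (by omega) (by omega))
            exact (h3.2 _ h2).2 (hE _ _ hc)
      · rintro (⟨rfl, h1⟩ | ⟨rfl, rfl⟩)
        · rw [hQ0, ← hfr, h1]
          exact hE _ _ (hA r (le_refl _))
        · rw [hQl, ← hf0]
          exact hA 0 (by omega)
    have hRR : ∀ s t (hs : s < R.length) (ht : t < R.length),
        E R[s] R[t] ↔ (t = s + 1 ∨ s = t + 1) := by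
      intro s t hs ht
      rw [hRget s hs, hRget t ht]
      constructor
      · intro hc
        rcases lt_trichotomy s t with h1 | h1 | h1
        · have := hch (s + 1) (t + 1) (by omega) (by omega) hc
          left; omega
        · subst h1
          exact absurd hc ((mem_Fset E l _).mp (hF (s + 1) (by omega) (by omega))).1
        · have := hch (t + 1) (s + 1) (by omega) (by omega) (hE _ _ hc)
          right; omega
      · rintro (rfl | rfl)
        · exact hA _ (by omega)
        · exact hE _ _ (hA _ (by omega))
    intro i j hi hj
    rw [List.length_append] at hi hj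
    by_cases h1 : i < Q.length
    · by_cases h2 : j < Q.length
      · rw [List.getElem_append_left h1, List.getElem_append_left h2, hadj i j h1 h2,
          List.length_append]
        omega
      · rw [List.getElem_append_left h1, List.getElem_append_right (by omega),
          hcross i (j - Q.length) h1 (by omega), List.length_append]
        omega
    · by_cases h2 : j < Q.length
      · rw [List.getElem_append_right (by omega), List.getElem_append_left h2,
          List.length_append]
        have h3 := hcross j (i - Q.length) h2 (by omega)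
        constructor
        · intro hc
          have := h3.mp (hE _ _ hc)
          omega
        · intro hc
          apply hE
          apply h3.mpr
          omega
      · rw [List.getElem_append_right (by omega), List.getElem_append_right (by omega),
          hRR (i - Q.length) (j - Q.length) (by omega) (by omega), List.length_append]
        omega
  · intro v hv
    exact List.mem_append.mpr (Or.inl hv)

end Pool.Agent.AvoidPath
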