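import Mathlib

/-!
Upper bound for the number of partitions of the integers at most `M`
(written as vectors of multiplicities): at most `exp (π √(2 M / 3))`.
-/

namespace Pool.Agent.AvoidPath

open Finset

/-- vectors of multiplicities `m` (the part `i + 1` is used `m i` times) of partitions of integers
at most `M` -/
noncomputable def Parts (M : ℕ) : Finset (Fin M → ℕ) :=
  (Fintype.piFinset (fun _ : Fin M => range (M + 1))).filter
    (fun m => ∑ i : Fin M, ((i : ℕ) + 1) * m i ≤ M)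

theorem parts_mul_pow_le (M : ℕ) (x : ℝ) (hx0 : 0 < x) (hx1 : x < 1) :
    ((Parts M).card : ℝ) * x ^ M ≤ ∏ i : Fin M, (1 - x ^ ((i : ℕ) + 1))⁻¹ := by
  have h1 : ((Parts M).card : ℝ) * x ^ M ≤
      ∑ m ∈ Parts M, ∏ i : Fin M, x ^ (((i : ℕ) + 1) * m i) := by
    rw [← nsmul_eq_mul]
    apply Finset.card_nsmul_le_sum
    intro m hm
    have hm' := (Finset.mem_filter.mp hm).2
    rw [Finset.prod_pow_eq_pow_sum]
    exact pow_le_pow_of_le_one hx0.le hx1.le hm'
  have h2 : ∑ m ∈ Parts M, ∏ i : Fin M, x ^ (((i : ℕ) + 1) * m i) ≤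
      ∑ m ∈ Fintype.piFinset (fun _ : Fin M => range (M + 1)),
        ∏ i : Fin M, x ^ (((i : ℕ) + 1) * m i) := by
    apply Finset.sum_le_sum_of_subset_of_nonneg (Finset.filter_subset _ _)
    intro m _ _
    exact Finset.prod_nonneg (fun i _ => pow_nonneg hx0.le _)
  have h3 : ∑ m ∈ Fintype.piFinset (fun _ : Fin M => range (M + 1)),
        ∏ i : Fin M, x ^ (((i : ℕ) + 1) * m i) =
      ∏ i : Fin M, ∑ j ∈ range (M + 1), x ^ (((i : ℕ) + 1) * j) := by
    rw [Finset.prod_univ_sum]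
  have h4 : ∏ i : Fin M, ∑ j ∈ range (M + 1), x ^ (((i : ℕ) + 1) * j) ≤
      ∏ i : Fin M, (1 - x ^ ((i : ℕ) + 1))⁻¹ := by
    apply Finset.prod_le_prod
    · intro i _
      exact Finset.sum_nonneg (fun j _ => pow_nonneg hx0.le _)
    · intro i _
      have hq0 : 0 ≤ x ^ ((i : ℕ) + 1) := pow_nonneg hx0.le _
      have hq1 : x ^ ((i : ℕ) + 1) < 1 := pow_lt_one₀ hx0.le hx1 (by omega)
      have e : ∀ j, x ^ (((i : ℕ) + 1) * j) = (x ^ ((i : ℕ) + 1)) ^ j := fun j => pow_mul _ _ _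
      simp only [e]
      rw [← tsum_geometric_of_lt_one hq0 hq1]
      exact (summable_geometric_of_lt_one hq0 hq1).sum_le_tsum _ (fun j _ => pow_nonneg hq0 _)
  linarith [h1, h2, h3.le, h3.ge, h4]

theorem sum_neg_log_le (M : ℕ) (t : ℝ) (ht : 0 < t) :
    ∑ i : Fin M, -Real.log (1 - Real.exp (-t) ^ ((i : ℕ) + 1)) ≤ Real.pi ^ 2 / (6 * t) := by
  set x := Real.exp (-t) with hx
  have hx0 : 0 < x := Real.exp_pos _
  have hx1 : x < 1 := by
    rw [hx, ← Real.exp_zero]; exact Real.exp_lt_exp.mpr (by linarith)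
  have h1 : ∀ i : Fin M, HasSum (fun n : ℕ => (x ^ ((i : ℕ) + 1)) ^ (n + 1) / ((n : ℝ) + 1))
      (-Real.log (1 - x ^ ((i : ℕ) + 1))) := by
    intro i
    apply Real.hasSum_pow_div_log_of_abs_lt_one
    rw [abs_of_nonneg (pow_nonneg hx0.le _)]
    exact pow_lt_one₀ hx0.le hx1 (by omega)
  have h2 := hasSum_sum (s := (Finset.univ : Finset (Fin M))) (fun i _ => h1 i)
  have h3 : HasSum (fun n : ℕ => (1 / ((n : ℝ) + 1) ^ 2) * (1 / t)) (Real.pi ^ 2 / 6 * (1 / t)) := by
    apply HasSum.mul_right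
    have h := (hasSum_nat_add_iff' (f := fun n : ℕ => 1 / ((n : ℝ)) ^ 2) 1).mpr hasSum_zeta_two
    simpa using h
  have h4 : ∀ n : ℕ, ∑ i : Fin M, (x ^ ((i : ℕ) + 1)) ^ (n + 1) / ((n : ℝ) + 1) ≤
      (1 / ((n : ℝ) + 1) ^ 2) * (1 / t) := by
    intro n
    have hn : (0 : ℝ) < (n : ℝ) + 1 := by positivity
    set q := x ^ (n + 1) with hq
    have hq0 : 0 < q := pow_pos hx0 _
    have hq1 : q < 1 := pow_lt_one₀ hx0.le hx1 (by omega)
    have e : ∀ i : Fin M, (x ^ ((i : ℕ) + 1)) ^ (n + 1) = q * q ^ (i : ℕ) := by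
      intro i
      rw [hq, ← pow_succ', ← pow_mul, ← pow_mul]
      ring_nf
    simp only [e]
    rw [← Finset.sum_div, ← Finset.mul_sum]
    have h5 : ∑ i : Fin M, q ^ (i : ℕ) ≤ (1 - q)⁻¹ := by
      rw [Fin.sum_univ_eq_sum_range (fun i => q ^ i) M, ← tsum_geometric_of_lt_one hq0.le hq1]
      exact (summable_geometric_of_lt_one hq0.le hq1).sum_le_tsum _ (fun j _ => pow_nonneg hq0.le _)
    have hs : 0 < ((n : ℝ) + 1) * t := by positivity
    have hqe : q = Real.exp (-(((n : ℝ) + 1) * t)) := by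
      rw [hq, hx, ← Real.exp_nat_mul]
      congr 1
      push_cast
      ring
    have h6 : q * (1 - q)⁻¹ ≤ 1 / (((n : ℝ) + 1) * t) := by
      rw [← div_eq_mul_inv, div_le_div_iff₀ (by linarith) hs]
      have h7 := Real.add_one_le_exp (((n : ℝ) + 1) * t)
      have h8 : q * Real.exp (((n : ℝ) + 1) * t) = 1 := by
        rw [hqe, ← Real.exp_add]
        simp
      have h9 : q * (((n : ℝ) + 1) * t + 1) ≤ 1 := by
        calc q * (((n : ℝ) + 1) * t + 1) ≤ q * Real.exp (((n : ℝ) + 1) * t) :=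
              mul_le_mul_of_nonneg_left h7 hq0.le
          _ = 1 := h8
      linarith
    have h10 : q * ∑ i : Fin M, q ^ (i : ℕ) ≤ 1 / (((n : ℝ) + 1) * t) :=
      le_trans (mul_le_mul_of_nonneg_left h5 hq0.le) h6
    calc (q * ∑ i : Fin M, q ^ (i : ℕ)) / ((n : ℝ) + 1)
        ≤ (1 / (((n : ℝ) + 1) * t)) / ((n : ℝ) + 1) := by gcongr
      _ = (1 / ((n : ℝ) + 1) ^ 2) * (1 / t) := by field_simp
  have h5 := hasSum_le h4 h2 h3
  calc ∑ i : Fin M, -Real.log (1 - x ^ ((i : ℕ) + 1)) ≤ Real.pi ^ 2 / 6 * (1 / t) := h5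
    _ = Real.pi ^ 2 / (6 * t) := by field_simp

theorem parts_card_le (M : ℕ) :
    ((Parts M).card : ℝ) ≤ Real.exp (Real.pi * Real.sqrt (2 * M / 3)) := by
  rcases Nat.eq_zero_or_pos M with h0 | hM
  · subst h0
    have h1 : (Parts 0).card ≤ 1 := by
      apply Finset.card_le_one.mpr
      intro a _ b _
      exact Subsingleton.elim _ _
    have h2 : ((Parts 0).card : ℝ) ≤ 1 := by exact_mod_cast h1
    simpa using h2
  · have hMr : (0 : ℝ) < M := by exact_mod_cast hM
    set t := Real.pi / Real.sqrt (6 * M) with ht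
    have hs : 0 < Real.sqrt (6 * M) := Real.sqrt_pos.mpr (by positivity)
    have ht0 : 0 < t := div_pos Real.pi_pos hs
    set x := Real.exp (-t) with hx
    have hx0 : 0 < x := Real.exp_pos _
    have hx1 : x < 1 := by
      rw [hx, ← Real.exp_zero]; exact Real.exp_lt_exp.mpr (by linarith)
    have h1 := parts_mul_pow_le M x hx0 hx1
    have h2 := sum_neg_log_le M t ht0
    rw [← hx] at h2
    have h3 : ∏ i : Fin M, (1 - x ^ ((i : ℕ) + 1))⁻¹ =
        Real.exp (∑ i : Fin M, -Real.log (1 - x ^ ((i : ℕ) + 1))) := by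
      rw [Real.exp_sum]
      apply Finset.prod_congr rfl
      intro i _
      have hp : 0 < 1 - x ^ ((i : ℕ) + 1) := by
        have := pow_lt_one₀ hx0.le hx1 (n := (i : ℕ) + 1) (by omega)
        linarith
      rw [Real.exp_neg, Real.exp_log hp]
    have h4 : ((Parts M).card : ℝ) * x ^ M ≤ Real.exp (Real.pi ^ 2 / (6 * t)) := by
      rw [h3] at h1
      exact le_trans h1 (Real.exp_le_exp.mpr h2)
    have h5 : x ^ M = Real.exp (-(M * t)) := by
      rw [hx, ← Real.exp_nat_mul]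
      congr 1
      ring
    have h6 : ((Parts M).card : ℝ) ≤ Real.exp (Real.pi ^ 2 / (6 * t)) * Real.exp (M * t) := by
      have h7 : Real.exp (-(M * t)) * Real.exp (M * t) = 1 := by
        rw [← Real.exp_add]; simp
      calc ((Parts M).card : ℝ) = ((Parts M).card : ℝ) * x ^ M * Real.exp (M * t) := by
            rw [h5, mul_assoc, h7, mul_one]
        _ ≤ _ := mul_le_mul_of_nonneg_right h4 (Real.exp_pos _).le
    rw [← Real.exp_add] at h6
    have h8 : Real.pi ^ 2 / (6 * t) + M * t = Real.pi * Real.sqrt (2 * M / 3) := by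
      have hsq : Real.sqrt (6 * M) * Real.sqrt (6 * M) = 6 * M :=
        Real.mul_self_sqrt (by positivity)
      have h9 : Real.sqrt (2 * M / 3) = Real.sqrt (6 * M) / 3 := by
        have h10 : (2 * (M : ℝ) / 3) = (6 * M) / (3 ^ 2) := by ring
        rw [h10, Real.sqrt_div' _ (by positivity), Real.sqrt_sq (by norm_num)]
      rw [h9, ht]
      have hpi := Real.pi_pos
      field_simp
      nlinarith [hsq]
    rw [h8] at h6
    exact h6

end Pool.Agent.AvoidPath
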