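import Pool.Agent.AvoidPath.Defs
import Pool.Agent.AvoidPath.Count

/-!
Components of the subgraph induced on a vertex set `F`, the code of the sizes of the components,
and the number of possible codes.
-/

namespace Pool.Agent.AvoidPath

open Finset Classical

set_option linter.unusedSectionVars false

variable {V : Type} [Fintype V]

/-- adjacency inside `F` -/
def Rin (E : V → V → Prop) (F : Finset V) (a b : V) : Prop := a ∈ F ∧ b ∈ F ∧ E a b

/-- the component of `v` in the subgraph induced on `F` -/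
noncomputable def comp (E : V → V → Prop) (F : Finset V) (v : V) : Finset V :=
  F.filter (fun u => Relation.ReflTransGen (Rin E F) v u)

/-- the size of the component of `v` -/
noncomputable def cs (E : V → V → Prop) (F : Finset V) (v : V) : ℕ := (comp E F v).card

/-- the number of vertices in components of size at least `j` -/
noncomputable def cnt (E : V → V → Prop) (F : Finset V) (j : ℕ) : ℕ :=
  (F.filter (fun v => j ≤ cs E F v)).card

/-- the code of the sizes of the components -/
noncomputable def code (E : V → V → Prop) (F : Finset V) : ℕ :=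
  ∑ j ∈ range (Fintype.card V + 1), cnt E F j * (Fintype.card V + 1) ^ j

theorem mem_comp_self (E : V → V → Prop) (F : Finset V) {v : V} (hv : v ∈ F) : v ∈ comp E F v :=
  Finset.mem_filter.mpr ⟨hv, Relation.ReflTransGen.refl⟩

theorem rin_symm (E : V → V → Prop) (hE : ∀ a b, E a b → E b a) (F : Finset V) :
    ∀ a b, Rin E F a b → Rin E F b a := fun a b h => ⟨h.2.1, h.1, hE a b h.2.2⟩

theorem rtg_symm (E : V → V → Prop) (hE : ∀ a b, E a b → E b a) (F : Finset V) {a b : V}
    (h : Relation.ReflTransGen (Rin E F) a b) : Relation.ReflTransGen (Rin E F) b a := by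
  induction h with
  | refl => exact Relation.ReflTransGen.refl
  | tail _ h2 ih => exact Relation.ReflTransGen.head (rin_symm E hE F _ _ h2) ih

theorem comp_eq_of_mem (E : V → V → Prop) (hE : ∀ a b, E a b → E b a) (F : Finset V) {u v : V}
    (h : u ∈ comp E F v) : comp E F u = comp E F v := by
  have h1 := (Finset.mem_filter.mp h).2
  have h2 := rtg_symm E hE F h1
  ext w
  constructor
  · intro hw
    have hw' := Finset.mem_filter.mp hw
    exact Finset.mem_filter.mpr ⟨hw'.1, h1.trans hw'.2⟩
  · intro hw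
    have hw' := Finset.mem_filter.mp hw
    exact Finset.mem_filter.mpr ⟨hw'.1, h2.trans hw'.2⟩

theorem comp_sub (E : V → V → Prop) (F F' : Finset V) {v : V}
    (h : comp E F v ⊆ F') : comp E F v ⊆ comp E F' v := by
  intro u hu
  have hu' := Finset.mem_filter.mp hu
  refine Finset.mem_filter.mpr ⟨h hu, ?_⟩
  have key : ∀ w, Relation.ReflTransGen (Rin E F) v w → Relation.ReflTransGen (Rin E F') v w := by
    intro w hw
    induction hw with
    | refl => exact Relation.ReflTransGen.refl
    | @tail b c h1 h2 ih =>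
      refine ih.tail ⟨h (Finset.mem_filter.mpr ⟨h2.1, h1⟩), h (Finset.mem_filter.mpr ⟨h2.2.1, h1.tail h2⟩), h2.2.2⟩
  exact key u hu'.2

theorem cs_pos (E : V → V → Prop) (F : Finset V) {v : V} (hv : v ∈ F) : 1 ≤ cs E F v :=
  Finset.card_pos.mpr ⟨v, mem_comp_self E F hv⟩

theorem digits_lt (B : ℕ) (a : ℕ → ℕ) (ha : ∀ j, a j < B) (n : ℕ) :
    ∑ j ∈ range n, a j * B ^ j < B ^ n := by
  induction n with
  | zero => simp
  | succ n ih =>
    rw [Finset.sum_range_succ, pow_succ]
    have h1 : a n + 1 ≤ B := ha n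
    have h2 : (a n + 1) * B ^ n ≤ B * B ^ n := Nat.mul_le_mul_right _ h1
    nlinarith

theorem code_lt_of (B N d : ℕ) (a a' : ℕ → ℕ) (ha : ∀ j, a j < B) (hd : d + 1 ≤ N)
    (h1 : ∀ j, d + 1 ≤ j → a j ≤ a' j) (h2 : a (d + 1) < a' (d + 1)) :
    ∑ j ∈ range (N + 1), a j * B ^ j < ∑ j ∈ range (N + 1), a' j * B ^ j := by
  induction N, hd using Nat.le_induction with
  | base =>
    rw [Finset.sum_range_succ, Finset.sum_range_succ (fun j => a' j * B ^ j)]
    have h3 := digits_lt B a ha (d + 1)
    have h4 : (a (d + 1) + 1) * B ^ (d + 1) ≤ a' (d + 1) * B ^ (d + 1) :=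
      Nat.mul_le_mul_right _ h2
    have h5 : 0 ≤ ∑ j ∈ range (d + 1), a' j * B ^ j := Nat.zero_le _
    nlinarith
  | succ N hN ih =>
    rw [Finset.sum_range_succ, Finset.sum_range_succ (fun j => a' j * B ^ j)]
    exact add_lt_add_of_lt_of_le ih (Nat.mul_le_mul_right _ (h1 _ (by omega)))

theorem cnt_lt (E : V → V → Prop) (F : Finset V) (j : ℕ) : cnt E F j < Fintype.card V + 1 :=
  Nat.lt_succ_of_le (Finset.card_le_univ _)

theorem code_lt (E : V → V → Prop) (F F' : Finset V)
    (x y : V) (hxF : x ∉ F) (hxF' : x ∈ F') (hsub : ∀ v ∈ F, ¬ E v y → v ∈ F')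
    (hE : ∀ a b, E a b → E b a)
    (hdis : ∀ z ∈ F, E z x → ∀ w ∈ comp E F z, ¬ E w y)
    (hmax : ∀ z ∈ F, E z y → ∃ w ∈ F, E w x ∧ cs E F z ≤ cs E F w) :
    code E F < code E F' := by
  set d := (F.filter (fun z => E z x)).sup (cs E F) with hd
  have hle : ∀ z ∈ F, E z x → cs E F z ≤ d := fun z hz hzx =>
    Finset.le_sup (f := cs E F) (Finset.mem_filter.mpr ⟨hz, hzx⟩)
  have hley : ∀ z ∈ F, E z y → cs E F z ≤ d := by
    intro z hz hzy
    obtain ⟨w, hw, hwx, hzw⟩ := hmax z hz hzy
    exact le_trans hzw (hle w hw hwx)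
  -- components of size larger than `d` survive
  have hsurv : ∀ v ∈ F, d + 1 ≤ cs E F v → comp E F v ⊆ F' := by
    intro v hv hcv u hu
    have huF := (Finset.mem_filter.mp hu).1
    apply hsub u huF
    intro huy
    have h1 := hley u huF huy
    have h2 : cs E F u = cs E F v := by unfold cs; rw [comp_eq_of_mem E hE F hu]
    omega
  have hmono : ∀ v ∈ F, d + 1 ≤ cs E F v → v ∈ F' ∧ cs E F v ≤ cs E F' v := by
    intro v hv hcv
    have h1 := hsurv v hv hcv
    exact ⟨h1 (mem_comp_self E F hv), Finset.card_le_card (comp_sub E F F' h1)⟩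
  -- the new vertex lies in a large component
  have hx : d + 1 ≤ cs E F' x := by
    by_cases h0 : (F.filter (fun z => E z x)).Nonempty
    · obtain ⟨z, hz, hzd⟩ := Finset.exists_mem_eq_sup _ h0 (cs E F)
      rw [← hd] at hzd
      have hz' := Finset.mem_filter.mp hz
      have h1 : comp E F z ⊆ F' := by
        intro u hu
        exact hsub u (Finset.mem_filter.mp hu).1 (hdis z hz'.1 hz'.2 u hu)
      have h2 := comp_sub E F F' h1
      have hzF' := h1 (mem_comp_self E F hz'.1)
      have hxz : z ∈ comp E F' x :=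
        Finset.mem_filter.mpr ⟨hzF', Relation.ReflTransGen.single ⟨hxF', hzF', hE _ _ hz'.2⟩⟩
      have h3 := comp_eq_of_mem E hE F' hxz
      have h4 : insert x (comp E F z) ⊆ comp E F' x := by
        intro u hu
        rcases Finset.mem_insert.mp hu with rfl | hu
        · exact mem_comp_self E F' hxF'
        · rw [← h3]; exact h2 hu
      have h5 := Finset.card_le_card h4
      have hxn : x ∉ comp E F z := fun h => hxF (Finset.mem_filter.mp h).1
      rw [Finset.card_insert_of_notMem hxn] at h5
      unfold cs at *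
      omega
    · rw [Finset.not_nonempty_iff_eq_empty] at h0
      have : d = 0 := by rw [hd, h0]; simp
      have := cs_pos E F' hxF'
      omega
  have hdN : d + 1 ≤ Fintype.card V := le_trans hx (Finset.card_le_univ _)
  unfold code
  apply code_lt_of (Fintype.card V + 1) (Fintype.card V) d _ _ (cnt_lt E F) hdN
  · intro j hj
    apply Finset.card_le_card
    intro v hv
    have hv' := Finset.mem_filter.mp hv
    have h1 := hmono v hv'.1 (le_trans hj hv'.2)
    exact Finset.mem_filter.mpr ⟨h1.1, le_trans hv'.2 h1.2⟩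
  · unfold cnt
    apply Finset.card_lt_card
    refine ⟨?_, ?_⟩
    · intro v hv
      have hv' := Finset.mem_filter.mp hv
      have h1 := hmono v hv'.1 hv'.2
      exact Finset.mem_filter.mpr ⟨h1.1, le_trans hv'.2 h1.2⟩
    · intro hcon
      exact hxF (Finset.mem_filter.mp (hcon (Finset.mem_filter.mpr ⟨hxF', hx⟩))).1

/-- the multiplicities of the component sizes -/
noncomputable def mvec (E : V → V → Prop) (M : ℕ) (F : Finset V) (i : Fin M) : ℕ :=
  ((F.filter (fun v => cs E F v = (i : ℕ) + 1)).image (comp E F)).card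

theorem card_fiber (E : V → V → Prop) (hE : ∀ a b, E a b → E b a) (M : ℕ) (F : Finset V)
    (i : Fin M) :
    (F.filter (fun v => cs E F v = (i : ℕ) + 1)).card = ((i : ℕ) + 1) * mvec E M F i := by
  unfold mvec
  rw [Finset.card_eq_sum_card_image (comp E F) (F.filter (fun v => cs E F v = (i : ℕ) + 1)),
    mul_comm, ← smul_eq_mul, ← Finset.sum_const]
  apply Finset.sum_congr rfl
  intro b hb
  obtain ⟨v, hv, rfl⟩ := Finset.mem_image.mp hb
  have hv' := Finset.mem_filter.mp hv
  rw [← hv'.2]
  unfold cs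
  congr 1
  ext a
  constructor
  · intro ha
    have ha' := Finset.mem_filter.mp ha
    rw [← ha'.2]
    exact mem_comp_self E F (Finset.mem_filter.mp ha'.1).1
  · intro ha
    have h1 := comp_eq_of_mem E hE F ha
    refine Finset.mem_filter.mpr ⟨Finset.mem_filter.mpr ⟨(Finset.mem_filter.mp ha).1, ?_⟩, h1⟩
    unfold cs at *
    rw [h1]

theorem cnt_eq (E : V → V → Prop) (hE : ∀ a b, E a b → E b a) (M : ℕ) (F : Finset V)
    (hF : F.card ≤ M) (j : ℕ) :
    cnt E F j = ∑ i : Fin M, if j ≤ (i : ℕ) + 1 then ((i : ℕ) + 1) * mvec E M F i else 0 := by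
  unfold cnt
  have h1 : ∀ v ∈ F.filter (fun v => j ≤ cs E F v), cs E F v ∈ range (M + 1) := by
    intro v _
    have h2 : cs E F v ≤ F.card := Finset.card_le_card (Finset.filter_subset _ _)
    exact Finset.mem_range.mpr (by omega)
  rw [Finset.card_eq_sum_card_fiberwise h1, Finset.sum_range_succ']
  have h0 : ((F.filter (fun v => j ≤ cs E F v)).filter (fun v => cs E F v = 0)).card = 0 := by
    rw [Finset.card_eq_zero, Finset.filter_eq_empty_iff]
    intro v hv h
    have := cs_pos E F (Finset.mem_filter.mp hv).1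
    omega
  rw [h0, add_zero]
  have h3 : ∀ i ∈ range M, ((F.filter (fun v => j ≤ cs E F v)).filter
      (fun v => cs E F v = i + 1)).card =
      if j ≤ i + 1 then (F.filter (fun v => cs E F v = i + 1)).card else 0 := by
    intro i _
    by_cases hj : j ≤ i + 1
    · rw [if_pos hj]
      congr 1
      ext v
      simp only [Finset.mem_filter]
      constructor
      · rintro ⟨⟨h1, _⟩, h3⟩; exact ⟨h1, h3⟩
      · rintro ⟨h1, h3⟩; exact ⟨⟨h1, by omega⟩, h3⟩
    · rw [if_neg hj, Finset.card_eq_zero, Finset.filter_eq_empty_iff]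
      intro v hv h
      have := (Finset.mem_filter.mp hv).2
      omega
  rw [Finset.sum_congr rfl h3,
    ← Fin.sum_univ_eq_sum_range
      (fun i => if j ≤ i + 1 then (F.filter (fun v => cs E F v = i + 1)).card else 0) M]
  apply Finset.sum_congr rfl
  intro i _
  rw [card_fiber E hE M F i]

theorem mvec_mem (E : V → V → Prop) (hE : ∀ a b, E a b → E b a) (M : ℕ) (F : Finset V)
    (hF : F.card ≤ M) : mvec E M F ∈ Parts M := by
  have h1 := cnt_eq E hE M F hF 0
  have h2 : ∑ i : Fin M, ((i : ℕ) + 1) * mvec E M F i ≤ M := by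
    have h3 : cnt E F 0 ≤ M := le_trans (Finset.card_le_card (Finset.filter_subset _ _)) hF
    rw [h1] at h3
    simpa using h3
  refine Finset.mem_filter.mpr ⟨?_, h2⟩
  rw [Fintype.mem_piFinset]
  intro i
  have h4 : ((i : ℕ) + 1) * mvec E M F i ≤ ∑ i : Fin M, ((i : ℕ) + 1) * mvec E M F i :=
    Finset.single_le_sum (f := fun i : Fin M => ((i : ℕ) + 1) * mvec E M F i)
      (fun _ _ => Nat.zero_le _) (Finset.mem_univ i)
  have h5 : mvec E M F i ≤ ((i : ℕ) + 1) * mvec E M F i := by nlinarith
  exact Finset.mem_range.mpr (by omega)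

/-- the possible codes of sets with at most `M` vertices -/
noncomputable def codes (V : Type) [Fintype V] (M : ℕ) : Finset ℕ :=
  (Parts M).image (fun m => ∑ j ∈ range (Fintype.card V + 1),
    (∑ i : Fin M, if j ≤ (i : ℕ) + 1 then ((i : ℕ) + 1) * m i else 0) *
      (Fintype.card V + 1) ^ j)

theorem code_mem (E : V → V → Prop) (hE : ∀ a b, E a b → E b a) (M : ℕ) (F : Finset V)
    (hF : F.card ≤ M) : code E F ∈ codes V M := by
  refine Finset.mem_image.mpr ⟨mvec E M F, mvec_mem E hE M F hF, ?_⟩
  unfold code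
  apply Finset.sum_congr rfl
  intro j _
  rw [cnt_eq E hE M F hF j]

theorem codes_card_le (V : Type) [Fintype V] (M : ℕ) : (codes V M).card ≤ (Parts M).card :=
  Finset.card_image_le

end Pool.Agent.AvoidPath
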