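import Mathlib

/-!
Induced paths, avoidable paths and shifts in a finite graph, given by its symmetric adjacency
relation `E` on the vertex type `V` (`E v v` means that `v` carries a loop).
-/

namespace Pool.Agent.AvoidPath

variable {V : Type}

/-- the list `l` of distinct vertices is an induced path: two of its vertices are adjacent exactly
when they are consecutive (so no vertex of it carries a loop) -/
def IndPath (E : V → V → Prop) (l : List V) : Prop :=
  l ≠ [] ∧ l.Nodup ∧
    ∀ (i j : ℕ) (hi : i < l.length) (hj : j < l.length),
      E l[i] l[j] ↔ (j = i + 1 ∨ i = j + 1)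

/-- the list `o` of at least three distinct vertices is an induced cycle: two of its vertices are
adjacent exactly when they are cyclically consecutive -/
def IndCycle (E : V → V → Prop) (o : List V) : Prop :=
  3 ≤ o.length ∧ o.Nodup ∧
    ∀ (i j : ℕ) (hi : i < o.length) (hj : j < o.length),
      E o[i] o[j] ↔ (j = i + 1 ∨ i = j + 1 ∨ (i = 0 ∧ j + 1 = o.length) ∨
        (j = 0 ∧ i + 1 = o.length))

/-- the induced path `l` is avoidable: every extension `x l y` lies on an induced cycle -/
def Avoidable (E : V → V → Prop) (l : List V) : Prop :=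
  IndPath E l ∧ ∀ x y, IndPath E (x :: (l ++ [y])) →
    ∃ o, IndCycle E o ∧ ∀ v ∈ x :: (l ++ [y]), v ∈ o

/-- `l` and `l'` are shifts of each other: they arise from one induced path `q` by dropping its
last, respectively its first, vertex (or the other way round) -/
def Shift (E : V → V → Prop) (l l' : List V) : Prop :=
  ∃ q, IndPath E q ∧ ((l = q.dropLast ∧ l' = q.tail) ∨ (l = q.tail ∧ l' = q.dropLast))

/-- `m` shifts lead from `l` to `l'` -/
def ShiftSeq (E : V → V → Prop) (m : ℕ) (l l' : List V) : Prop :=
  ∃ f : ℕ → List V, f 0 = l ∧ f m = l' ∧ ∀ i < m, Shift E (f i) (f (i + 1))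

end Pool.Agent.AvoidPath
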