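import Pool.Agent.AvoidPath.Step

/-!
Graphs without an induced cycle with `k + 2` vertices: at most `n - k - 1` shifts lead from an
induced path with `k` vertices to an avoidable one.
-/

namespace Pool.Agent.AvoidPath

open Finset Classical

set_option linter.unusedSectionVars false

variable {V : Type} [Fintype V]

/-- the state `l` with a dropped vertex `t` in front of it, which touches a component of size at
least `j` -/
def StO (E : V → V → Prop) (j : ℕ) (l : List V) : Prop :=
  ∃ t s, IndPath E (t :: l) ∧ s ∈ Fset E l ∧ E s t ∧ j ≤ cs E (Fset E l) s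

def St (E : V → V → Prop) (j : ℕ) (l : List V) : Prop := StO E j l ∨ StO E j l.reverse

theorem y_notMem (E : V → V → Prop) (p : V) (l₀ : List V) (y : V)
    (hq : IndPath E ((p :: l₀) ++ [y])) : y ∉ Fset E (p :: l₀) := by
  intro hy
  rw [mem_Fset] at hy
  have h2 := (hq.2.2 (p :: l₀).length ((p :: l₀).length - 1) (by simp) (by simp)).mpr
    (Or.inr (by simp))
  have e1 : (p :: l₀ ++ [y])[(p :: l₀).length]'(by simp) = y := by simp
  have e2 : (p :: l₀ ++ [y])[(p :: l₀).length - 1]'(by simp) ∈ p :: l₀ := by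
    rw [List.getElem_append_left (by simp)]
    exact List.getElem_mem _
  rw [e1] at h2
  exact (hy.2 _ e2).2 h2

/-- the general growth step -/
theorem grow (E : V → V → Prop) (hE : ∀ a b, E a b → E b a) (p : V) (l₀ : List V) (y a s : V)
    (hq : IndPath E ((p :: l₀) ++ [y])) (ha : a ∈ Fset E (l₀ ++ [y]))
    (haF : a ∉ Fset E (p :: l₀)) (hap : E a p)
    (hw : ∃ w ∈ comp E (Fset E (p :: l₀)) s, E w a)
    (hy : ∀ w ∈ comp E (Fset E (p :: l₀)) s, ¬ E w y) :
    StO E (cs E (Fset E (p :: l₀)) s + 1) (l₀ ++ [y]) := by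
  have hyF := y_notMem E p l₀ y hq
  have hsub : comp E (Fset E (p :: l₀)) s ⊆ Fset E (l₀ ++ [y]) := by
    intro v hv
    have hvF := (Finset.mem_filter.mp hv).1
    have hv' := (mem_Fset E _ v).mp hvF
    rw [mem_Fset]
    refine ⟨hv'.1, ?_⟩
    intro u hu
    rcases List.mem_append.mp hu with hu | hu
    · exact hv'.2 u (by simp [hu])
    · rw [List.mem_singleton] at hu
      subst hu
      refine ⟨?_, hy v hv⟩
      rintro rfl
      exact hyF hvF
  have h1 := comp_sub E _ _ hsub
  obtain ⟨w, hw, hwa⟩ := hw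
  have hwF' := hsub hw
  have hwc := h1 hw
  have hwca : w ∈ comp E (Fset E (l₀ ++ [y])) a :=
    Finset.mem_filter.mpr ⟨hwF', Relation.ReflTransGen.single ⟨ha, hwF', hE _ _ hwa⟩⟩
  have e1 := comp_eq_of_mem E hE _ hwc
  have e2 := comp_eq_of_mem E hE _ hwca
  have h2 : insert a (comp E (Fset E (p :: l₀)) s) ⊆ comp E (Fset E (l₀ ++ [y])) a := by
    intro u hu
    rcases Finset.mem_insert.mp hu with rfl | hu
    · exact mem_comp_self E _ ha
    · rw [← e2, e1]; exact h1 hu
  have h3 := Finset.card_le_card h2
  have hxn : a ∉ comp E (Fset E (p :: l₀)) s := fun h => haF (Finset.mem_filter.mp h).1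
  rw [Finset.card_insert_of_notMem hxn] at h3
  exact ⟨p, a, by simpa using hq, ha, hap, h3⟩

/-- the vertex `x` in front of an extension -/
theorem front (E : V → V → Prop) (p : V) (l₀ : List V) (x y : V)
    (h : IndPath E (x :: ((p :: l₀) ++ [y]))) :
    x ∈ Fset E (l₀ ++ [y]) ∧ x ∉ Fset E (p :: l₀) ∧ E x p := by
  obtain ⟨_, hnd, hadj⟩ := h
  have hxx : ¬ E x x := by
    intro hc
    have := (hadj 0 0 (by simp) (by simp)).mp (by simpa using hc)
    omega
  have hxl' : ∀ v ∈ l₀ ++ [y], x ≠ v ∧ ¬ E x v := by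
    intro v hv
    obtain ⟨i, hi, rfl⟩ := List.getElem_of_mem hv
    have hlen : (x :: (p :: l₀ ++ [y])).length = (l₀ ++ [y]).length + 2 := by simp
    have e : (x :: (p :: l₀ ++ [y]))[i + 2]'(by omega) = (l₀ ++ [y])[i] := by
      simp
    constructor
    · intro hc
      have h1 : (x :: (p :: l₀ ++ [y]))[0]'(by omega) =
          (x :: (p :: l₀ ++ [y]))[i + 2]'(by omega) := by rw [e]; exact hc
      have h2 := (List.Nodup.getElem_inj_iff hnd).mp h1
      omega
    · intro hc
      have h1 : E ((x :: (p :: l₀ ++ [y]))[0]'(by omega))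
          ((x :: (p :: l₀ ++ [y]))[i + 2]'(by omega)) := by rw [e]; exact hc
      have h2 := (hadj _ _ _ _).mp h1
      omega
  have hxp : E x p := by
    have := (hadj 0 1 (by simp) (by simp)).mpr (Or.inl rfl)
    simpa using this
  refine ⟨(mem_Fset E _ _).mpr ⟨hxx, hxl'⟩, ?_, hxp⟩
  intro hx
  rw [mem_Fset] at hx
  exact (hx.2 p (by simp)).2 hxp

/-- the induced cycle with `k + 2` vertices -/
theorem short_cycle (E : V → V → Prop) (hE : ∀ a b, E a b → E b a) (l : List V) (hl : l ≠ [])
    (t y : V) (h1 : IndPath E (t :: l)) (h2 : IndPath E (l ++ [y])) (hty : t ≠ y) (he : E t y) :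
    IndCycle E (t :: (l ++ [y])) := by
  have hlpos : 0 < l.length := List.length_pos_iff.mpr hl
  refine ⟨by simp; omega, ?_, ?_⟩
  · rw [List.nodup_cons]
    refine ⟨?_, h2.2.1⟩
    intro hm
    rcases List.mem_append.mp hm with hm | hm
    · exact (List.nodup_cons.mp h1.2.1).1 hm
    · rw [List.mem_singleton] at hm
      exact hty hm
  · have key : ∀ (i j : ℕ) (hi : i < (t :: (l ++ [y])).length) (hj : j < (t :: (l ++ [y])).length),
        i ≤ j → (E (t :: (l ++ [y]))[i] (t :: (l ++ [y]))[j] ↔
          (j = i + 1 ∨ i = j + 1 ∨ (i = 0 ∧ j + 1 = (t :: (l ++ [y])).length) ∨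
            (j = 0 ∧ i + 1 = (t :: (l ++ [y])).length))) := by
      intro i j hi hj hij
      have hlen : (t :: (l ++ [y])).length = l.length + 2 := by simp
      rcases Nat.eq_zero_or_pos i with rfl | hi0
      · rcases Nat.eq_zero_or_pos j with rfl | hj0
        · have h3 := h1.2.2 0 0 (by simp) (by simp)
          simp only [List.getElem_cons_zero] at h3 ⊢
          rw [h3, hlen]
          omega
        · obtain ⟨j', rfl⟩ : ∃ j', j = j' + 1 := ⟨j - 1, by omega⟩
          simp only [List.getElem_cons_zero, List.getElem_cons_succ]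
          by_cases hj' : j' < l.length
          · rw [List.getElem_append_left hj']
            have h3 := h1.2.2 0 (j' + 1) (by simp) (by simp; omega)
            simp only [List.getElem_cons_zero, List.getElem_cons_succ] at h3
            rw [h3, hlen]
            omega
          · have hj'' : j' = l.length := by omega
            subst hj''
            have e : (l ++ [y])[l.length]'(by simp) = y := by simp
            rw [e]
            constructor
            · intro _; right; right; left; exact ⟨trivial, by rw [hlen]⟩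
            · intro _; exact he
      · obtain ⟨i', rfl⟩ : ∃ i', i = i' + 1 := ⟨i - 1, by omega⟩
        obtain ⟨j', rfl⟩ : ∃ j', j = j' + 1 := ⟨j - 1, by omega⟩
        simp only [List.getElem_cons_succ]
        have h3 := h2.2.2 i' j' (by simp; omega) (by simp; omega)
        rw [h3, hlen]
        omega
    intro i j hi hj
    rcases Nat.le_total i j with hij | hij
    · exact key i j hi hj hij
    · constructor
      · intro hc
        have := (key j i hj hi hij).mp (hE _ _ hc)
        omega
      · intro hc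
        exact hE _ _ ((key j i hj hi hij).mpr (by omega))

/-- a bad pair -/
theorem bad_pair (E : V → V → Prop) (l : List V) (hl : IndPath E l) (hna : ¬ Avoidable E l) :
    ∃ x y, IndPath E (x :: (l ++ [y])) ∧
      ¬ ∃ o, IndCycle E o ∧ ∀ v ∈ x :: (l ++ [y]), v ∈ o := by
  by_contra hcon
  apply hna
  refine ⟨hl, ?_⟩
  intro x y hxy
  by_contra h2
  exact hcon ⟨x, y, hxy, h2⟩

theorem caseA (E : V → V → Prop) (hE : ∀ a b, E a b → E b a) (l : List V) (hl : l ≠ [])
    (x y : V) (h : IndPath E (x :: (l ++ [y])))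
    (hno : ¬ ∃ o, IndCycle E o ∧ ∀ v ∈ x :: (l ++ [y]), v ∈ o)
    (s w : V) (hs : s ∈ Fset E l) (hw : w ∈ comp E (Fset E l) s) (hwx : E w x) :
    ∃ l', IndPath E l' ∧ l'.length = l.length ∧ Shift E l l' ∧
      StO E (cs E (Fset E l) s + 1) l' := by
  obtain ⟨p, l₀, rfl⟩ : ∃ p l₀, l = p :: l₀ := List.exists_cons_of_ne_nil hl
  have hq : IndPath E ((p :: l₀) ++ [y]) := indPath_tail E x _ (by simp) h
  have hl' : IndPath E (l₀ ++ [y]) := indPath_tail E p _ (by simp) (by simpa using hq)
  obtain ⟨hx1, hx2, hx3⟩ := front E p l₀ x y h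
  refine ⟨l₀ ++ [y], hl', by simp, ⟨(p :: l₀) ++ [y], hq, Or.inl ⟨by rw [List.dropLast_concat], by simp⟩⟩, ?_⟩
  apply grow E hE p l₀ y x s hq hx1 hx2 hx3 ⟨w, hw, hwx⟩
  intro u hu huy
  apply hno
  have hwF := (Finset.mem_filter.mp hw).1
  have e := comp_eq_of_mem E hE _ hw
  exact closable E hE (p :: l₀) hl x y h w u hwF (by rw [e]; exact hu) hwx huy

theorem stepO (E : V → V → Prop) (hE : ∀ a b, E a b → E b a) (l : List V) (hl : IndPath E l)
    (hna : ¬ Avoidable E l) (hfree : ∀ o, IndCycle E o → o.length ≠ l.length + 2) (j : ℕ)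
    (hst : StO E j l) :
    ∃ l', IndPath E l' ∧ l'.length = l.length ∧ Shift E l l' ∧ St E (j + 1) l' := by
  obtain ⟨x, y, h, hno⟩ := bad_pair E l hl hna
  obtain ⟨t, s, ht, hs, hst, hj⟩ := hst
  by_cases hA : ∃ w ∈ comp E (Fset E l) s, E w x
  · obtain ⟨w, hw, hwx⟩ := hA
    obtain ⟨l', h1, h2, h3, h4⟩ := caseA E hE l hl.1 x y h hno s w hs hw hwx
    refine ⟨l', h1, h2, h3, Or.inl ?_⟩
    obtain ⟨t', s', h5, h6, h7, h8⟩ := h4
    exact ⟨t', s', h5, h6, h7, by omega⟩
  · by_cases hB : ∃ w ∈ comp E (Fset E l) s, E w y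
    · obtain ⟨w, hw, hwy⟩ := hB
      have hrev : IndPath E (y :: (l.reverse ++ [x])) := by
        have := indPath_reverse E _ h
        simpa using this
      have hno' : ¬ ∃ o, IndCycle E o ∧ ∀ v ∈ y :: (l.reverse ++ [x]), v ∈ o := by
        rintro ⟨o, ho, hov⟩
        apply hno
        refine ⟨o, ho, ?_⟩
        intro v hv
        apply hov
        simp only [List.mem_cons, List.mem_append, List.mem_reverse, List.mem_nil_iff,
          or_false] at hv ⊢
        tauto
      have hF := fset_reverse E l
      obtain ⟨l', h1, h2, h3, h4⟩ := caseA E hE l.reverse (by simpa using hl.1) y x hrev hno' s w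
        (by rw [hF]; exact hs) (by rw [hF]; exact hw) hwy
      refine ⟨l'.reverse, indPath_reverse E _ h1, by simpa using h2, ?_, Or.inr ?_⟩
      · have := shift_reverse E _ _ h3
        simpa using this
      · rw [List.reverse_reverse]
        rw [hF] at h4
        obtain ⟨t', s', h5, h6, h7, h8⟩ := h4
        exact ⟨t', s', h5, h6, h7, by omega⟩
    · push Not at hA hB
      obtain ⟨p, l₀, rfl⟩ : ∃ p l₀, l = p :: l₀ := List.exists_cons_of_ne_nil hl.1
      have hq : IndPath E ((p :: l₀) ++ [y]) := indPath_tail E x _ (by simp) h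
      have hl' : IndPath E (l₀ ++ [y]) := indPath_tail E p _ (by simp) (by simpa using hq)
      have hss := mem_comp_self E _ hs
      have hty : t ≠ y := by
        rintro rfl
        exact hB s hss hst
      have htE : ¬ E t y := by
        intro he
        have hc := short_cycle E hE (p :: l₀) (by simp) t y ht hq hty he
        exact hfree _ hc (by simp)
      -- `t` is free after the shift
      have htp : E t p := by
        have := (ht.2.2 0 1 (by simp) (by simp)).mpr (Or.inl rfl)
        simpa using this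
      have htF : t ∉ Fset E (p :: l₀) := by
        intro hx
        rw [mem_Fset] at hx
        exact (hx.2 p (by simp)).2 htp
      have htt : ¬ E t t := by
        intro hc
        have := (ht.2.2 0 0 (by simp) (by simp)).mp (by simpa using hc)
        omega
      have htF' : t ∈ Fset E (l₀ ++ [y]) := by
        rw [mem_Fset]
        refine ⟨htt, ?_⟩
        intro v hv
        rcases List.mem_append.mp hv with hv | hv
        · obtain ⟨i, hi, rfl⟩ := List.getElem_of_mem hv
          have e : (t :: p :: l₀)[i + 2]'(by simp; omega) = l₀[i] := by simp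
          constructor
          · intro hc
            have h1 : (t :: p :: l₀)[0]'(by simp) = (t :: p :: l₀)[i + 2]'(by simp; omega) := by
              rw [e]; exact hc
            have h2 := (List.Nodup.getElem_inj_iff ht.2.1).mp h1
            omega
          · intro hc
            have h1 : E ((t :: p :: l₀)[0]'(by simp)) ((t :: p :: l₀)[i + 2]'(by simp; omega)) := by
              rw [e]; exact hc
            have h2 := (ht.2.2 _ _ _ _).mp h1
            omega
        · rw [List.mem_singleton] at hv
          subst hv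
          exact ⟨hty, htE⟩
      refine ⟨l₀ ++ [y], hl', by simp,
        ⟨(p :: l₀) ++ [y], hq, Or.inl ⟨by rw [List.dropLast_concat], by simp⟩⟩, Or.inl ?_⟩
      obtain ⟨t', s', h5, h6, h7, h8⟩ :=
        grow E hE p l₀ y t s hq htF' htF htp ⟨s, hss, hst⟩ hB
      exact ⟨t', s', h5, h6, h7, by omega⟩

theorem step_st (E : V → V → Prop) (hE : ∀ a b, E a b → E b a) (l : List V) (hl : IndPath E l)
    (hna : ¬ Avoidable E l) (hfree : ∀ o, IndCycle E o → o.length ≠ l.length + 2) (j : ℕ)
    (hst : St E j l) :
    ∃ l', IndPath E l' ∧ l'.length = l.length ∧ Shift E l l' ∧ St E (j + 1) l' := by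
  rcases hst with hst | hst
  · exact stepO E hE l hl hna hfree j hst
  · have hna' : ¬ Avoidable E l.reverse := by
      intro ha
      apply hna
      refine ⟨hl, ?_⟩
      intro x y hxy
      have hrev : IndPath E (y :: (l.reverse ++ [x])) := by
        have := indPath_reverse E _ hxy
        simpa using this
      obtain ⟨o, ho, hov⟩ := ha.2 y x hrev
      refine ⟨o, ho, ?_⟩
      intro v hv
      apply hov
      simp only [List.mem_cons, List.mem_append, List.mem_reverse, List.mem_nil_iff,
        or_false] at hv ⊢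
      tauto
    obtain ⟨l', h1, h2, h3, h4⟩ := stepO E hE l.reverse (indPath_reverse E _ hl) hna'
      (by simpa using hfree) j hst
    refine ⟨l'.reverse, indPath_reverse E _ h1, by simpa using h2, ?_, ?_⟩
    · have := shift_reverse E _ _ h3
      simpa using this
    · rcases h4 with h4 | h4
      · right; rw [List.reverse_reverse]; exact h4
      · left; exact h4

theorem stO_card (E : V → V → Prop) (j : ℕ) (l : List V) (hne : l ≠ []) (h : StO E j l) :
    j + l.length + 1 ≤ Fintype.card V := by
  obtain ⟨t, s, ht, hs, hst, hj⟩ := h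
  have h1 : (t :: l).toFinset.card = l.length + 1 := by
    rw [List.toFinset_card_of_nodup ht.2.1]
    simp
  have h2 : Disjoint (comp E (Fset E l) s) ((t :: l).toFinset) := by
    rw [Finset.disjoint_left]
    intro v hv hv2
    rw [List.mem_toFinset] at hv2
    have hv' := (mem_Fset E l v).mp (Finset.mem_filter.mp hv).1
    rcases List.mem_cons.mp hv2 with rfl | hv2
    · have hlpos : 0 < l.length := List.length_pos_iff.mpr hne
      have h3 := (ht.2.2 0 1 (by simp) (by simp; omega)).mpr (Or.inl rfl)
      simp only [List.getElem_cons_zero, List.getElem_cons_succ] at h3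
      exact (hv'.2 _ (List.getElem_mem hlpos)).2 h3
    · exact (hv'.2 v hv2).1 rfl
  have h3 := Finset.card_union_of_disjoint h2
  have h4 : (comp E (Fset E l) s ∪ (t :: l).toFinset).card ≤ Fintype.card V :=
    Finset.card_le_univ _
  unfold cs at hj
  omega

theorem st_card (E : V → V → Prop) (j : ℕ) (l : List V) (hne : l ≠ []) (h : St E j l) :
    j + l.length + 1 ≤ Fintype.card V := by
  rcases h with h | h
  · exact stO_card E j l hne h
  · have := stO_card E j l.reverse (by simpa using hne) h
    simpa using this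

theorem shiftSeq_cons (E : V → V → Prop) (m : ℕ) (l l' l'' : List V) (h : Shift E l l')
    (hm : ShiftSeq E m l' l'') : ShiftSeq E (m + 1) l l'' := by
  obtain ⟨f, hf0, hfm, hf⟩ := hm
  refine ⟨fun i => if i = 0 then l else f (i - 1), by simp, by simp [hfm], ?_⟩
  intro i hi
  by_cases h0 : i = 0
  · subst h0
    simp only [if_true, Nat.zero_add, one_ne_zero, if_false, Nat.sub_self]
    rw [hf0]
    exact h
  · have h6 : ¬ i + 1 = 0 := by omega
    simp only [h0, h6, if_false]
    have h7 := hf (i - 1) (by omega)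
    have h8 : i - 1 + 1 = i + 1 - 1 := by omega
    rw [h8] at h7
    exact h7

theorem nocycle_from (E : V → V → Prop) (hE : ∀ a b, E a b → E b a) (k : ℕ)
    (hfree : ∀ o, IndCycle E o → o.length ≠ k + 2) :
    ∀ (c j : ℕ) (l : List V), IndPath E l → l.length = k → St E j l →
      Fintype.card V - j = c →
      ∃ m l', ShiftSeq E m l l' ∧ Avoidable E l' ∧ j + m + k + 1 ≤ Fintype.card V := by
  intro c
  induction c using Nat.strong_induction_on with
  | _ c ih =>
    intro j l hl hk hst hc
    have hcard := st_card E j l hl.1 hst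
    by_cases ha : Avoidable E l
    · exact ⟨0, l, ⟨fun _ => l, rfl, rfl, fun i hi => absurd hi (Nat.not_lt_zero i)⟩, ha,
        by omega⟩
    · obtain ⟨l', h1, h2, h3, h4⟩ := step_st E hE l hl ha (by rw [hk]; exact hfree) j hst
      obtain ⟨m, l'', h5, h6, h7⟩ := ih (Fintype.card V - (j + 1)) (by omega) (j + 1) l' h1
        (by omega) h4 rfl
      exact ⟨m + 1, l'', shiftSeq_cons E m l l' l'' h3 h5, h6, by omega⟩

theorem nocycle_main (E : V → V → Prop) (hE : ∀ a b, E a b → E b a) (l : List V)
    (hl : IndPath E l) (hfree : ∀ o, IndCycle E o → o.length ≠ l.length + 2) :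
    ∃ m l', ShiftSeq E m l l' ∧ Avoidable E l' ∧ m ≤ Fintype.card V - l.length - 1 := by
  by_cases ha : Avoidable E l
  · exact ⟨0, l, ⟨fun _ => l, rfl, rfl, fun i hi => absurd hi (Nat.not_lt_zero i)⟩, ha,
      Nat.zero_le _⟩
  · obtain ⟨x, y, h, hno⟩ := bad_pair E l hl ha
    obtain ⟨p, l₀, rfl⟩ : ∃ p l₀, l = p :: l₀ := List.exists_cons_of_ne_nil hl.1
    have hq : IndPath E ((p :: l₀) ++ [y]) := indPath_tail E x _ (by simp) h
    have hl' : IndPath E (l₀ ++ [y]) := indPath_tail E p _ (by simp) (by simpa using hq)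
    obtain ⟨hx1, hx2, hx3⟩ := front E p l₀ x y h
    have hst : St E 1 (l₀ ++ [y]) :=
      Or.inl ⟨p, x, by simpa using hq, hx1, hx3, cs_pos E _ hx1⟩
    obtain ⟨m, l'', h5, h6, h7⟩ := nocycle_from E hE (p :: l₀).length hfree _ 1 (l₀ ++ [y]) hl'
      (by simp) hst rfl
    refine ⟨m + 1, l'', shiftSeq_cons E m _ _ l'' ?_ h5, h6, by omega⟩
    exact ⟨(p :: l₀) ++ [y], hq, Or.inl ⟨by rw [List.dropLast_concat], by simp⟩⟩

end Pool.Agent.AvoidPath
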