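import Pool.Agent.AvoidPath.Close

/-!
One shift away from a path that is not avoidable, which increases the code, and the bound for the
length of the resulting shift sequence.
-/

namespace Pool.Agent.AvoidPath

open Finset Classical

set_option linter.unusedSectionVars false

variable {V : Type} [Fintype V]

theorem indPath_tail (E : V → V → Prop) (a : V) (q : List V) (hq : q ≠ [])
    (h : IndPath E (a :: q)) : IndPath E q := by
  obtain ⟨_, h2, h3⟩ := h
  refine ⟨hq, (List.nodup_cons.mp h2).2, ?_⟩
  intro i j hi hj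
  have h4 := h3 (i + 1) (j + 1) (by simp; omega) (by simp; omega)
  simp only [List.getElem_cons_succ] at h4
  rw [h4]
  omega

theorem indPath_init (E : V → V → Prop) (b : V) (q : List V) (hq : q ≠ [])
    (h : IndPath E (q ++ [b])) : IndPath E q := by
  obtain ⟨_, h2, h3⟩ := h
  refine ⟨hq, (List.nodup_append.mp h2).1, ?_⟩
  intro i j hi hj
  have h4 := h3 i j (by simp; omega) (by simp; omega)
  rw [List.getElem_append_left hi, List.getElem_append_left hj] at h4
  exact h4

theorem indPath_reverse (E : V → V → Prop) (q : List V) (h : IndPath E q) :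
    IndPath E q.reverse := by
  obtain ⟨h1, h2, h3⟩ := h
  refine ⟨by simpa using h1, List.nodup_reverse.mpr h2, ?_⟩
  intro i j hi hj
  rw [List.length_reverse] at hi hj
  rw [List.getElem_reverse, List.getElem_reverse, h3 _ _ (by omega) (by omega)]
  omega

theorem shift_reverse (E : V → V → Prop) (l l' : List V) (h : Shift E l l') :
    Shift E l.reverse l'.reverse := by
  obtain ⟨q, hq, h⟩ := h
  refine ⟨q.reverse, indPath_reverse E q hq, ?_⟩
  rcases h with ⟨rfl, rfl⟩ | ⟨rfl, rfl⟩
  · right
    simp
  · left
    simp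

theorem fset_reverse (E : V → V → Prop) (l : List V) : Fset E l.reverse = Fset E l := by
  ext v
  rw [mem_Fset, mem_Fset]
  simp

/-- the forward shift -/
theorem forward (E : V → V → Prop) (hE : ∀ a b, E a b → E b a) (l : List V) (hl : l ≠ [])
    (x y : V) (h : IndPath E (x :: (l ++ [y])))
    (hdis : ∀ z ∈ Fset E l, E z x → ∀ w ∈ comp E (Fset E l) z, ¬ E w y)
    (hmax : ∀ z ∈ Fset E l, E z y → ∃ w ∈ Fset E l, E w x ∧
      cs E (Fset E l) z ≤ cs E (Fset E l) w) :
    ∃ l', IndPath E l' ∧ l'.length = l.length ∧ Shift E l l' ∧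
      code E (Fset E l) < code E (Fset E l') := by
  obtain ⟨p, l₀, rfl⟩ : ∃ p l₀, l = p :: l₀ := List.exists_cons_of_ne_nil hl
  have hq : IndPath E ((p :: l₀) ++ [y]) := indPath_tail E x _ (by simp) h
  have hl' : IndPath E (l₀ ++ [y]) := indPath_tail E p _ (by simp) (by simpa using hq)
  obtain ⟨_, hnd, hadj⟩ := h
  have hxx : ¬ E x x := by
    intro hc
    have := (hadj 0 0 (by simp) (by simp)).mp (by simpa using hc)
    omega
  have hxl' : ∀ v ∈ l₀ ++ [y], x ≠ v ∧ ¬ E x v := by
    intro v hv
    obtain ⟨i, hi, rfl⟩ := List.getElem_of_mem hv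
    have hlen : (x :: (p :: l₀ ++ [y])).length = (l₀ ++ [y]).length + 2 := by simp
    have e : (x :: (p :: l₀ ++ [y]))[i + 2]'(by omega) = (l₀ ++ [y])[i] := by
      simp
    constructor
    · intro hc
      have h1 : (x :: (p :: l₀ ++ [y]))[0]'(by omega) =
          (x :: (p :: l₀ ++ [y]))[i + 2]'(by omega) := by rw [e]; exact hc
      have h2 := (List.Nodup.getElem_inj_iff hnd).mp h1
      omega
    · intro hc
      have h1 : E ((x :: (p :: l₀ ++ [y]))[0]'(by omega))
          ((x :: (p :: l₀ ++ [y]))[i + 2]'(by omega)) := by rw [e]; exact hc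
      have h2 := (hadj _ _ _ _).mp h1
      omega
  have hxp : E x p := by
    have := (hadj 0 1 (by simp) (by simp)).mpr (Or.inl rfl)
    simpa using this
  have hyF : y ∉ Fset E (p :: l₀) := by
    intro hy
    rw [mem_Fset] at hy
    have h1 : (p :: l₀).length < (p :: l₀ ++ [y]).length := by simp
    have h2 := (hq.2.2 (p :: l₀).length ((p :: l₀).length - 1) (by simp) (by simp)).mpr
      (Or.inr (by simp))
    have e1 : (p :: l₀ ++ [y])[(p :: l₀).length]'(by simp) = y := by simp
    have e2 : (p :: l₀ ++ [y])[(p :: l₀).length - 1]'(by simp) ∈ p :: l₀ := by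
      rw [List.getElem_append_left (by simp)]
      exact List.getElem_mem _
    rw [e1] at h2
    exact (hy.2 _ e2).2 h2
  refine ⟨l₀ ++ [y], hl', by simp, ⟨(p :: l₀) ++ [y], hq, Or.inl ⟨by rw [List.dropLast_concat], by simp⟩⟩, ?_⟩
  apply code_lt E (Fset E (p :: l₀)) (Fset E (l₀ ++ [y])) x y ?_ ?_ ?_ hE hdis hmax
  · intro hx
    rw [mem_Fset] at hx
    exact (hx.2 p (by simp)).2 hxp
  · rw [mem_Fset]
    exact ⟨hxx, hxl'⟩
  · intro v hv hvy
    have hv' := (mem_Fset E _ v).mp hv
    rw [mem_Fset]
    refine ⟨hv'.1, ?_⟩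
    intro u hu
    rcases List.mem_append.mp hu with hu | hu
    · exact hv'.2 u (by simp [hu])
    · rw [List.mem_singleton] at hu
      subst hu
      refine ⟨?_, hvy⟩
      rintro rfl
      exact hyF hv

theorem card_bound (E : V → V → Prop) (l : List V) (hl : l ≠ [])
    (x y : V) (h : IndPath E (x :: (l ++ [y]))) :
    (Fset E l).card + (l.length + 2) ≤ Fintype.card V := by
  have h1 : (x :: (l ++ [y])).toFinset.card = l.length + 2 := by
    rw [List.toFinset_card_of_nodup h.2.1]
    simp
  have h2 : Disjoint (Fset E l) (x :: (l ++ [y])).toFinset := by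
    rw [Finset.disjoint_left]
    intro v hv hv2
    rw [List.mem_toFinset] at hv2
    have hv' := (mem_Fset E l v).mp hv
    obtain ⟨_, hnd, hadj⟩ := h
    have hlen : (x :: (l ++ [y])).length = l.length + 2 := by simp
    have hlpos : 0 < l.length := List.length_pos_iff.mpr hl
    rcases List.mem_cons.mp hv2 with rfl | hv2
    · have h3 := (hadj 0 1 (by omega) (by omega)).mpr (Or.inl rfl)
      have e : (v :: (l ++ [y]))[1]'(by omega) = l[0]'hlpos := by
        simp only [List.getElem_cons_succ]
        rw [List.getElem_append_left hlpos]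
      rw [e] at h3
      exact (hv'.2 _ (List.getElem_mem hlpos)).2 h3
    · rcases List.mem_append.mp hv2 with hv2 | hv2
      · exact (hv'.2 v hv2).1 rfl
      · rw [List.mem_singleton] at hv2
        subst hv2
        have h3 := (hadj (l.length + 1) l.length (by omega) (by omega)).mpr (Or.inr rfl)
        obtain ⟨i, hi⟩ : ∃ i, l.length = i + 1 := ⟨l.length - 1, by omega⟩
        have e : (x :: (l ++ [v]))[l.length]'(by omega) = l[i]'(by omega) := by
          have e1 : (x :: (l ++ [v]))[l.length]'(by omega) =
              (x :: (l ++ [v]))[i + 1]'(by omega) := by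
            congr 1
          rw [e1]
          simp only [List.getElem_cons_succ]
          rw [List.getElem_append_left (by omega)]
        have e2 : (x :: (l ++ [v]))[l.length + 1]'(by omega) = v := by simp
        rw [e, e2] at h3
        exact (hv'.2 _ (List.getElem_mem _)).2 h3
  have h3 := Finset.card_union_of_disjoint h2
  have h4 : (Fset E l ∪ (x :: (l ++ [y])).toFinset).card ≤ Fintype.card V :=
    Finset.card_le_univ _
  omega

theorem step (E : V → V → Prop) (hE : ∀ a b, E a b → E b a) (l : List V) (hl : IndPath E l)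
    (hna : ¬ Avoidable E l) :
    (∃ l', IndPath E l' ∧ l'.length = l.length ∧ Shift E l l' ∧
      code E (Fset E l) < code E (Fset E l')) ∧
      (Fset E l).card + (l.length + 2) ≤ Fintype.card V := by
  have h1 : ∃ x y, IndPath E (x :: (l ++ [y])) ∧
      ¬ ∃ o, IndCycle E o ∧ ∀ v ∈ x :: (l ++ [y]), v ∈ o := by
    by_contra hcon
    apply hna
    refine ⟨hl, ?_⟩
    intro x y hxy
    by_contra h2
    exact hcon ⟨x, y, hxy, h2⟩
  obtain ⟨x, y, h, hno⟩ := h1
  refine ⟨?_, card_bound E l hl.1 x y h⟩
  have hdis : ∀ z ∈ Fset E l, E z x → ∀ w ∈ comp E (Fset E l) z, ¬ E w y := by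
    intro z hz hzx w hw hwy
    exact hno (closable E hE l hl.1 x y h z w hz hw hzx hwy)
  by_cases hmax : ∀ z ∈ Fset E l, E z y → ∃ w ∈ Fset E l, E w x ∧
      cs E (Fset E l) z ≤ cs E (Fset E l) w
  · exact forward E hE l hl.1 x y h hdis hmax
  · -- some component touched by `y` is larger than all those touched by `x`: shift to `x`
    push Not at hmax
    obtain ⟨z, hz, hzy, hzmax⟩ := hmax
    have hrev : IndPath E (y :: (l.reverse ++ [x])) := by
      have := indPath_reverse E _ h
      simpa using this
    have hF := fset_reverse E l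
    have hdis' : ∀ z ∈ Fset E l.reverse, E z y →
        ∀ w ∈ comp E (Fset E l.reverse) z, ¬ E w x := by
      rw [hF]
      intro z hz hzy w hw hwx
      have hwF := (Finset.mem_filter.mp hw).1
      have h3 := comp_eq_of_mem E hE (Fset E l) hw
      have h4 : z ∈ comp E (Fset E l) w := by rw [h3]; exact mem_comp_self E _ hz
      exact hdis w hwF hwx z h4 hzy
    have hmax' : ∀ z ∈ Fset E l.reverse, E z x → ∃ w ∈ Fset E l.reverse, E w y ∧
        cs E (Fset E l.reverse) z ≤ cs E (Fset E l.reverse) w := by
      rw [hF]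
      intro w hw hwx
      exact ⟨z, hz, hzy, (hzmax w hw hwx).le⟩
    obtain ⟨l', h1, h2, h3, h4⟩ := forward E hE l.reverse (by simpa using hl.1) y x hrev hdis' hmax'
    refine ⟨l'.reverse, indPath_reverse E _ h1, by simpa using h2, ?_, ?_⟩
    · have := shift_reverse E _ _ h3
      simpa using this
    · rw [hF] at h4
      rw [fset_reverse]
      exact h4

theorem main_nat (E : V → V → Prop) (hE : ∀ a b, E a b → E b a) (k : ℕ) :
    ∀ (s : ℕ) (l : List V), IndPath E l → l.length = k →
      ((codes V (Fintype.card V - k - 2)).filter (fun c => code E (Fset E l) ≤ c)).card = s →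
      ∃ m l', ShiftSeq E m l l' ∧ Avoidable E l' ∧ m ≤ s := by
  intro s
  induction s using Nat.strong_induction_on with
  | _ s ih =>
    intro l hl hk hs
    by_cases ha : Avoidable E l
    · exact ⟨0, l, ⟨fun _ => l, rfl, rfl, fun i hi => absurd hi (Nat.not_lt_zero i)⟩, ha,
        Nat.zero_le _⟩
    · obtain ⟨⟨l', h1, h2, h3, h4⟩, h5⟩ := step E hE l hl ha
      have hmem : code E (Fset E l) ∈ codes V (Fintype.card V - k - 2) :=
        code_mem E hE _ _ (by omega)
      have hlt : ((codes V (Fintype.card V - k - 2)).filter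
          (fun c => code E (Fset E l') ≤ c)).card < s := by
        rw [← hs]
        apply Finset.card_lt_card
        refine ⟨?_, ?_⟩
        · intro c hc
          have hc' := Finset.mem_filter.mp hc
          exact Finset.mem_filter.mpr ⟨hc'.1, by omega⟩
        · intro hcon
          have := Finset.mem_filter.mp (hcon (Finset.mem_filter.mpr ⟨hmem, le_refl _⟩))
          omega
      obtain ⟨m, l'', ⟨f, hf0, hfm, hf⟩, hav, hm⟩ := ih _ hlt l' h1 (by omega) rfl
      refine ⟨m + 1, l'', ⟨fun i => if i = 0 then l else f (i - 1), by simp, by simp [hfm], ?_⟩,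
        hav, by omega⟩
      intro i hi
      by_cases h0 : i = 0
      · subst h0
        simp only [if_true, Nat.zero_add, one_ne_zero, if_false, Nat.sub_self]
        rw [hf0]
        exact h3
      · have h6 : ¬ i + 1 = 0 := by omega
        simp only [h0, h6, if_false]
        have h7 := hf (i - 1) (by omega)
        have h8 : i - 1 + 1 = i + 1 - 1 := by omega
        rw [h8] at h7
        exact h7

theorem main_bound (E : V → V → Prop) (hE : ∀ a b, E a b → E b a) (l : List V)
    (hl : IndPath E l) :
    ∃ m l', ShiftSeq E m l l' ∧ Avoidable E l' ∧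
      (m : ℝ) ≤ Real.exp (Real.pi * Real.sqrt (2 * ((Fintype.card V - l.length - 2 : ℕ) : ℝ) / 3)) := by
  obtain ⟨m, l', h1, h2, h3⟩ := main_nat E hE l.length _ l hl rfl rfl
  refine ⟨m, l', h1, h2, ?_⟩
  have h4 : m ≤ (Parts (Fintype.card V - l.length - 2)).card :=
    le_trans h3 (le_trans (Finset.card_le_card (Finset.filter_subset _ _))
      (codes_card_le V _))
  calc (m : ℝ) ≤ ((Parts (Fintype.card V - l.length - 2)).card : ℝ) := by exact_mod_cast h4
    _ ≤ _ := parts_card_le _

end Pool.Agent.AvoidPath
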